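import Mathlib

set_option autoImplicit false

namespace Pool.Agent.Results.MP_4d2e3d_co.Cex

open Module Submodule

variable {F E : Type} [Field F] [AddCommGroup E] [Module F E]

/-- The rank axioms of a `q`-matroid. -/
def QMat (ρ : Submodule F E → ℕ) : Prop :=
  (∀ V, ρ V ≤ finrank F V) ∧ Monotone ρ ∧ ∀ U V, ρ (U ⊔ V) + ρ (U ⊓ V) ≤ ρ U + ρ V

/-- The projectivization matroid is represented by vectors over `K`. -/
def PRep (K : Type) [Field K] (ρ : Submodule F E → ℕ) : Prop :=
  ∃ (k : ℕ) (c : {L : Submodule F E // finrank F L = 1} → Fin k → K),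
    ∀ A : Set {L : Submodule F E // finrank F L = 1},
      ρ (⨆ L ∈ A, L.1) = finrank K (span K (c '' A))

/-- The `q`-matroid is represented over the extension field `K`. -/
def QRep (K : Type) [Field K] [Algebra F K] (ρ : Submodule F E → ℕ) : Prop :=
  ∃ (k : ℕ) (g : E →ₗ[F] Fin k → K), ∀ V, ρ V = finrank K (span K (g '' V))

theorem result (F K : Type) [Field F] [Finite F] [Field K] [Finite K] [Algebra F K] :
    ∃ (n : ℕ) (ρ : Submodule F (Fin n → F) → ℕ), QMat ρ ∧ PRep K ρ ∧ ¬ QRep K ρ := by
  refine ⟨finrank F K + 1, fun V => min 1 (finrank F V), ⟨fun V => min_le_right _ _,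
    fun U V h => min_le_min_left _ (finrank_mono h), fun U V => ?_⟩, ⟨1, fun _ => 1, fun A => ?_⟩,
    fun ⟨k, g, h⟩ => ?_⟩
  · have a := finrank_sup_add_finrank_inf_eq U V
    have b := finrank_mono (inf_le_left : U ⊓ V ≤ U)
    have c := finrank_mono (inf_le_right : U ⊓ V ≤ V)
    simp only
    omega
  · obtain rfl | ⟨L, hL⟩ := A.eq_empty_or_nonempty
    · rw [Set.image_empty, span_empty, iSup_emptyset]
      simp
    rw [Set.Nonempty.image_const ⟨L, hL⟩, finrank_span_singleton one_ne_zero]
    exact min_eq_left (L.2.ge.trans (finrank_mono (le_biSup (fun L => L.1) hL)))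
  have t := h ⊤
  simp only [finrank_top, finrank_fintype_fun_eq_card, Fintype.card_fin, le_add_iff_nonneg_left,
    zero_le, inf_of_le_left] at t
  have e := finrank_mul_finrank F K (span K (g '' (⊤ : Submodule F (Fin (finrank F K + 1) → F))))
  rw [← t, mul_one] at e
  obtain ⟨v, p, q⟩ := (Submodule.ne_bot_iff _).1 (LinearMap.ker_ne_bot_of_finrank_lt
    (f := g.codRestrict ((span K
      (g '' (⊤ : Submodule F (Fin (finrank F K + 1) → F)))).restrictScalars F)
      fun v => subset_span ⟨v, trivial, rfl⟩) (e.symm.trans_lt (by simp)))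
  have z : g v = 0 := congrArg Subtype.val p
  have := h (span F {v})
  simp only at this
  rw [finrank_span_singleton q, span_eq_bot.2, finrank_bot] at this
  · simp at this
  rintro _ ⟨u, hu, rfl⟩
  obtain ⟨a, rfl⟩ := mem_span_singleton.1 hu
  rw [map_smul, z, smul_zero]

end Pool.Agent.Results.MP_4d2e3d_co.Cex
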